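import Pool.Agent.Q224.Nu.Max

/-!
# MP_c222f6_nt, Q2: there are infinitely many maximal `(ν₃, 2)`-progressions
-/

namespace Pool.Agent.Results.MP_c222f6_nt.InfinitelyManyThree

open Pool.Agent.Q224.Nu

/-- There are infinitely many maximal `(ν₃, 2)`-progressions. -/
theorem result : Set.Infinite {AB : ℕ × ℕ | IsMaxProg 3 2 AB.1 AB.2} :=
  infinite_three

end Pool.Agent.Results.MP_c222f6_nt.InfinitelyManyThree
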