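import Pool.Agent.Q224.Nu.TwoD

/-!
# MP_c222f6_nt, Q1: there are infinitely many maximal `(ν₂, 4)`-progressions
-/

namespace Pool.Agent.Results.MP_c222f6_nt.InfinitelyManyTwo

open Pool.Agent.Q224.Nu

/-- There are infinitely many maximal `(ν₂, 4)`-progressions. -/
theorem result : Set.Infinite {AB : ℕ × ℕ | IsMaxProg 2 4 AB.1 AB.2} :=
  infinite_two

end Pool.Agent.Results.MP_c222f6_nt.InfinitelyManyTwo
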